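import Mathlib

/-!
# Finitely generated abelian groups: minimal subgroups up to powers
-/

set_option autoImplicit false

open Module

namespace Pool.Agent.U631.RV

variable {G : Type} [Group G]

/-- every element of `H` has a positive power in `H'` -/
def PC (H H' : Subgroup G) : Prop := ∀ a ∈ H, ∃ m : ℕ, 0 < m ∧ a ^ m ∈ H'

lemma PC.trans {H H' H'' : Subgroup G} (h : PC H H') (h' : PC H' H'') : PC H H'' := by
  intro a ha
  obtain ⟨m, hm, h1⟩ := h a ha
  obtain ⟨n, hn, h2⟩ := h' _ h1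
  exact ⟨m * n, Nat.mul_pos hm hn, by rw [pow_mul]; exact h2⟩

lemma PC.of_le {H H' : Subgroup G} (h : H ≤ H') : PC H H' := fun a ha =>
  ⟨1, one_pos, by rw [pow_one]; exact h ha⟩

lemma PC.of_relIndex {H H' : Subgroup G} (h : H'.relIndex H ≠ 0) : PC H H' := by
  intro a ha
  obtain ⟨n, hn, -, h1⟩ := Subgroup.exists_pow_mem_of_relIndex_ne_zero h ha
  exact ⟨n, hn, h1.1⟩

/-- the structure of a commutative group -/
@[reducible] def cg {A : Subgroup G} (hc : ∀ a ∈ A, ∀ b ∈ A, a * b = b * a) : CommGroup A where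
  mul_comm a b := Subtype.ext (hc a a.2 b b.2)

/-- the elements of `A` in `H` as a submodule -/
def sb {A : Subgroup G} (hc : ∀ a ∈ A, ∀ b ∈ A, a * b = b * a) (H : Subgroup G) :
    letI := cg hc
    Submodule ℤ (Additive A) :=
  letI := cg hc
  AddSubgroup.toIntSubmodule (Subgroup.toAddSubgroup (H.subgroupOf A))

lemma mem_sb {A : Subgroup G} (hc : ∀ a ∈ A, ∀ b ∈ A, a * b = b * a) {H : Subgroup G} {x : A} :
    Additive.ofMul x ∈ sb hc H ↔ (x : G) ∈ H := Iff.rfl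

/-- submodules of the same rank -/
lemma smul_mem_of_finrank {W : Type} [AddCommGroup W] [Module.Finite ℤ W] {N M : Submodule ℤ W}
    (hle : N ≤ M) (h : finrank ℤ M ≤ finrank ℤ N) {x : W} (hx : x ∈ M) :
    ∃ m : ℕ, 0 < m ∧ m • x ∈ N := by
  have h1 := Submodule.finrank_quotient_add_finrank (N.comap M.subtype)
  have h2 : finrank ℤ (N.comap M.subtype) = finrank ℤ N :=
    (Submodule.comapSubtypeEquivOfLe hle).finrank_eq
  have h3 : finrank ℤ (M ⧸ N.comap M.subtype) = 0 := by omega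
  rw [finrank_eq_zero_iff] at h3
  obtain ⟨k, hk, h4⟩ := h3 (Submodule.Quotient.mk ⟨x, hx⟩)
  rw [← Submodule.Quotient.mk_smul, Submodule.Quotient.mk_eq_zero] at h4
  have h5 : k • x ∈ N := h4
  refine ⟨k.natAbs, Int.natAbs_pos.2 hk, ?_⟩
  rcases Int.natAbs_eq k with h6 | h6
  · rw [← natCast_zsmul, ← h6]; exact h5
  · rw [← natCast_zsmul]
    have : ((k.natAbs : ℕ) : ℤ) = -k := by omega
    rw [this, neg_smul]
    exact N.neg_mem h5

lemma fin_mod {A : Subgroup G} (hc : ∀ a ∈ A, ∀ b ∈ A, a * b = b * a) (hfg : A.FG) :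
    letI := cg hc
    Module.Finite ℤ (Additive A) := by
  let _ := cg hc
  rw [Module.Finite.iff_addGroup_fg]
  have : Group.FG A := (Group.fg_iff_subgroup_fg A).2 hfg
  infer_instance

/-- a minimal member, up to powers, of a family of subgroups -/
theorem exists_min {A Q : Subgroup G} (hc : ∀ a ∈ A, ∀ b ∈ A, a * b = b * a) (hfg : A.FG)
    (hQ : PC Q A) {ι : Type} (F : ι → Subgroup G) (i₀ : ι) (h₀ : F i₀ ≤ Q) :
    ∃ i, F i ≤ Q ∧ ∀ j, F j ≤ F i → PC (F i) (F j) := by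
  classical
  let _ := cg hc
  have := fin_mod hc hfg
  have hex : ∃ n : ℕ, ∃ i, F i ≤ Q ∧ finrank ℤ (sb hc (F i)) = n := ⟨_, i₀, h₀, rfl⟩
  obtain ⟨i, hi, hn⟩ := Nat.find_spec hex
  refine ⟨i, hi, fun j hj => ?_⟩
  have h1 : finrank ℤ (sb hc (F i)) ≤ finrank ℤ (sb hc (F j)) := by
    rw [hn]
    exact Nat.find_min' hex ⟨j, hj.trans hi, rfl⟩
  intro s hs
  obtain ⟨m, hm, hmA⟩ := hQ s (hi hs)
  have h2 : Additive.ofMul (⟨s ^ m, hmA⟩ : A) ∈ sb hc (F i) := (F i).pow_mem hs m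
  obtain ⟨k, hk, h3⟩ := smul_mem_of_finrank (N := sb hc (F j)) (M := sb hc (F i))
    (fun x hx => hj hx) h1 h2
  refine ⟨m * k, Nat.mul_pos hm hk, ?_⟩
  have h4 : ((⟨s ^ m, hmA⟩ : A) ^ k : A) = ⟨(s ^ m) ^ k, A.pow_mem hmA k⟩ := rfl
  have h5 : Additive.ofMul ((⟨s ^ m, hmA⟩ : A) ^ k) ∈ sb hc (F j) := h3
  rw [mem_sb hc, h4] at h5
  rw [pow_mul]
  exact h5

/-- subgroups of a finitely generated abelian group are finitely generated -/
theorem fg_inf {A : Subgroup G} (hc : ∀ a ∈ A, ∀ b ∈ A, a * b = b * a) (hfg : A.FG)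
    (H : Subgroup G) : (A ⊓ H).FG := by
  let _ := cg hc
  have := fin_mod hc hfg
  have h1 : (sb hc H).FG := IsNoetherian.noetherian _
  rw [Submodule.fg_iff_addSubgroup_fg] at h1
  have h2 : (H.subgroupOf A).FG := by
    rw [Subgroup.fg_iff_add_fg]
    exact h1
  have h3 : A ⊓ H = (H.subgroupOf A).map A.subtype := by
    rw [Subgroup.subgroupOf_map_subtype, inf_comm]
  rw [h3]
  classical
  obtain ⟨S, hS⟩ := h2
  exact ⟨S.image A.subtype, by rw [Finset.coe_image, ← MonoidHom.map_closure, hS]⟩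

end Pool.Agent.U631.RV
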