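import Pool.Agent.U631.RV.Par
import Pool.Agent.T6.H46.RC.Key

/-!
# Rank rigidity for groups which act on a tree with a virtually abelian segment stabiliser
-/

set_option autoImplicit false

open Metric Set Filter Topology
open Pool.Agent.TH60.FP Pool.Agent.TH60.FP.Strip Pool.Agent.Y34.HB Pool.Agent.Y34.EL
open Pool.Agent.T6.H46.RR Pool.Agent.T6.H67.TA Pool.Agent.T6.H46.RC

namespace Pool.Agent.U631.RV

variable {X : Type} [MetricSpace X] {G : Type} [Group G] [MulAction G X]
variable {V : Type} {T : SimpleGraph V} (hT : T.IsTree) [MulAction G V]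
  (hact : ∀ (g : G) (u v : V), T.Adj u v → T.Adj (g • u) (g • v))

include hT hact in
/-- **Main theorem** -/
theorem main [Nonempty X] (hG : Geo X G) (hGC : GC X) {a b : V} (hab : T.Adj a b) {p q : G}
    (hp : Fac T a b p) (hq : Fac T b a q) (g₀ : G) (A : Subgroup G) (hA : A ≤ LL a b 1 g₀)
    (hfg : A.FG) (hcomm : ∀ x ∈ A, ∀ y ∈ A, x * y = y * x) (hind : A.relIndex (LL a b 1 g₀) ≠ 0) :
    (∃ g : G, RankOne X g) ∨ SplitsLine X := by
  classical
  have := hG.isom
  obtain ⟨⟨u₀, v₀⟩, hQ, hmin⟩ := exists_min hcomm hfg (PC.of_relIndex hind)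
    (fun i : G × G => LL a b i.1 i.2) (1, g₀) le_rfl
  obtain ⟨w, h, hh, hle⟩ := exists_coh hT hact hab hp hq u₀ v₀
  -- minimality of the coherent pair
  have hM : ∀ u v x : G, LL a b u v ≤ LL a b x (x * h) →
      PC (LL a b x (x * h)) (LL a b u v) := by
    intro u v x hx
    have e1 : ∀ z : G, w * x⁻¹ * z = w * x⁻¹ * z := fun z => rfl
    have h1 : LL a b ((w * x⁻¹) * u) ((w * x⁻¹) * v) ≤ LL a b w (w * h) := by
      intro s hs
      rw [mem_LL_mul] at hs
      have h2 := hx hs
      have h3 : s ∈ LL a b ((w * x⁻¹) * x) ((w * x⁻¹) * (x * h)) := mem_LL_mul.2 h2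
      have e2 : w * x⁻¹ * x = w := by group
      have e3 : w * x⁻¹ * (x * h) = w * h := by group
      rwa [e2, e3] at h3
    have h2 : PC (LL a b w (w * h)) (LL a b ((w * x⁻¹) * u) ((w * x⁻¹) * v)) :=
      (PC.of_le hle).trans (hmin (_, _) (h1.trans hle))
    have h3 := h2.mul (x * w⁻¹)
    have e2 : x * w⁻¹ * w = x := by group
    have e3 : x * w⁻¹ * (w * h) = x * h := by group
    have e4 : x * w⁻¹ * (w * x⁻¹ * u) = u := by group
    have e5 : x * w⁻¹ * (w * x⁻¹ * v) = v := by group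
    rwa [e2, e3, e4, e5] at h3
  have hcm := comm_of_min hT hact hab hh hM
  by_cases hfin : (LL a b w (w * h) : Set G).Finite
  · -- a finite stabiliser
    left
    obtain ⟨hax, hfix⟩ := coh_axis hT hact hab hh hh (g := (1 : G)) (one_smul _ _) (one_smul _ _)
    obtain ⟨o⟩ := ‹Nonempty X›
    refine ⟨_, rank_one_of_finite hT hact hG o hax 2 ?_⟩
    refine (hfin.image (fun s => w⁻¹ * s * w)).subset ?_
    rintro s ⟨e1, e2⟩
    obtain ⟨x1, -, x2, x3⟩ := hfix s e1 e2
    refine ⟨w * s * w⁻¹, ?_, by group⟩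
    have h1 : s ∈ LL a b 1 h := by
      rw [mem_LL, one_smul, one_smul]
      rw [one_mul] at x2 x3
      exact ⟨x1, x2, x3⟩
    have h2 : w * s * w⁻¹ ∈ LL a b (w * 1) (w * h) := by
      rw [mem_LL_mul]
      have : w⁻¹ * (w * s * w⁻¹) * w = s := by group
      rwa [this]
    rwa [mul_one] at h2
  · -- an infinite one
    have hinf : ((A ⊓ LL a b w (w * h) : Subgroup G) : Set G).Infinite := by
      intro hfi
      refine hfin ?_
      have h1 : (A ⊓ LL a b w (w * h)).relIndex (LL a b w (w * h)) ≠ 0 := by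
        rw [Subgroup.inf_relIndex_right]
        exact fun h0 => hind (Subgroup.relIndex_eq_zero_of_le_right (hle.trans hQ) h0)
      have h2 : Finite (A ⊓ LL a b w (w * h) : Subgroup G) := hfi
      have h3 : Finite ((A ⊓ LL a b w (w * h)).subgroupOf (LL a b w (w * h))) :=
        Finite.of_injective (fun x => (⟨((x : LL a b w (w * h)) : G), x.2⟩ :
          (A ⊓ LL a b w (w * h) : Subgroup G))) (by
            intro x y hxy
            have := congrArg Subtype.val hxy
            exact Subtype.ext (Subtype.ext this))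
      have h4 := Subgroup.card_mul_index ((A ⊓ LL a b w (w * h)).subgroupOf (LL a b w (w * h)))
      have h5 : Nat.card (LL a b w (w * h)) ≠ 0 := by
        rw [← h4]
        exact mul_ne_zero Nat.card_pos.ne' h1
      exact Nat.finite_of_card_ne_zero h5
    refine split_of_comm hG hGC (A ⊓ LL a b w (w * h)) (fg_inf hcomm hfg _)
      (fun x hx y hy => hcomm x hx.1 y hy.1) hinf fun g x hx => ?_
    -- `x` is in `LL w (w h)`, a power of it in `g⁻¹ LL g`
    obtain ⟨m, hm, h1⟩ := hcm w (g⁻¹ * w) x hx.2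
    have h2 : g * x ^ m * g⁻¹ ∈ LL a b (g * (g⁻¹ * w)) (g * (g⁻¹ * w * h)) := by
      rw [mem_LL_mul]
      have : g⁻¹ * (g * x ^ m * g⁻¹) * g = x ^ m := by group
      rwa [this]
    have e1 : g * (g⁻¹ * w) = w := by group
    have e2 : g * (g⁻¹ * w * h) = w * h := by group
    rw [e1, e2] at h2
    obtain ⟨n, hn, h3⟩ := PC.of_relIndex hind _ ((hle.trans hQ) h2)
    refine ⟨m * n, Nat.mul_pos hm hn, ?_⟩
    have e : g * x ^ (m * n) * g⁻¹ = (g * x ^ m * g⁻¹) ^ n := by
      rw [conj_pow, pow_mul]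
    rw [e]
    exact ⟨h3, Subgroup.pow_mem _ h2 n⟩

end Pool.Agent.U631.RV
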