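import Pool.Agent.U631.RV.Tree
import Pool.Agent.T6.H46.RR.Fin
import Pool.Agent.T6.H46.RR.Split

/-!
# Abelian groups of isometries which are commensurated up to powers
-/

set_option autoImplicit false

open Metric Set Filter Topology
open Pool.Agent.TH60.FP Pool.Agent.TH60.FP.Strip Pool.Agent.Y34.HB Pool.Agent.Y34.EL
open Pool.Agent.T6.H46.RR

namespace Pool.Agent.U631.RV

variable {X : Type} [MetricSpace X] {G : Type} [Group G] [MulAction G X]

/-- axes of the same element have the same translation length -/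
lemma axis_length [IsIsometricSMul G X] {g : G} {τ τ' : ℝ} {c c' : ℝ → X} (hτ : 0 < τ)
    (hτ' : 0 < τ') (hc : Axis g τ c) (hc' : Axis g τ' c') : τ = τ' := by
  have key : ∀ (τ τ' : ℝ) (c c' : ℝ → X), 0 < τ → 0 < τ' → Axis g τ c → Axis g τ' c' → τ ≤ τ' := by
    intro τ τ' c c' hτ hτ' hc hc'
    by_contra hcon
    push Not at hcon
    obtain ⟨n, hn⟩ := exists_nat_gt (2 * dist (c 0) (c' 0) / (τ - τ'))
    rw [div_lt_iff₀ (by linarith)] at hn
    have h1 := Pool.Agent.R632.CZ.Axis.nat hc n 0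
    have h2 := Pool.Agent.R632.CZ.Axis.nat hc' n 0
    rw [zero_add] at h1 h2
    have h3 := dist_triangle4 (c 0) (c' 0) (g ^ n • c' 0) (g ^ n • c 0)
    rw [dist_smul, h1, h2, hc.1.dist_eq, hc'.1.dist_eq, Real.dist_eq, Real.dist_eq, zero_sub,
      zero_sub, abs_neg, abs_neg, abs_of_nonneg (by positivity), abs_of_nonneg (by positivity),
      dist_comm (c' 0) (c 0)] at h3
    nlinarith
  exact le_antisymm (key _ _ _ _ hτ hτ' hc hc') (key _ _ _ _ hτ' hτ hc' hc)

lemma axis_npow [IsIsometricSMul G X] {g : G} {τ : ℝ} {c : ℝ → X} (hc : Axis g τ c) (n : ℕ) :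
    Axis (g ^ n) (n * τ) c :=
  ⟨hc.1, fun t => Pool.Agent.R632.CZ.Axis.nat hc n t⟩

lemma axis_cj [IsIsometricSMul G X] {g : G} {τ : ℝ} {c : ℝ → X} (hc : Axis g τ c) (s : G) :
    Axis (s * g * s⁻¹) τ (fun u => s • c u) := by
  refine ⟨(isometry_smul X s).comp hc.1, fun t => ?_⟩
  show (s * g * s⁻¹) • s • c t = s • c (t + τ)
  rw [← hc.2, smul_smul, smul_smul]
  congr 1; group

/-- an element with an axis and its powers have no fixed points -/
lemma axis_no_fix [IsIsometricSMul G X] {g : G} {τ : ℝ} {c : ℝ → X} (hτ : 0 < τ)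
    (hc : Axis g τ c) (y : X) : g • y ≠ y := by
  intro hy
  have hn : ∀ n : ℕ, g ^ n • y = y := by
    intro n
    induction n with
    | zero => simp
    | succ n ih => rw [pow_succ, mul_smul, hy, ih]
  obtain ⟨n, hn'⟩ := exists_nat_gt (2 * dist (c 0) y / τ)
  rw [div_lt_iff₀ hτ] at hn'
  have h1 := Pool.Agent.R632.CZ.Axis.nat hc n 0
  rw [zero_add] at h1
  have h3 := dist_triangle (c 0) y (g ^ n • c 0)
  have h4 : dist y (g ^ n • c 0) = dist y (c 0) := by
    conv_lhs => rw [← hn n]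
    rw [dist_smul]
  rw [h4, h1, hc.1.dist_eq, Real.dist_eq, zero_sub, abs_neg, abs_of_nonneg (by positivity),
    dist_comm y] at h3
  linarith

lemma par_smul [IsIsometricSMul G X] {c c' : ℝ → X} (h : Par c c') (g : G) :
    Par (fun t => g • c t) (fun t => g • c' t) := by
  obtain ⟨B, hB⟩ := h
  exact ⟨B, fun t => by rw [dist_smul]; exact hB t⟩

/-- **Splitting.**  If an infinite finitely generated abelian group is commensurated, up to powers,
then the space is the product of a line and another space, or a line. -/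
theorem split_of_comm [Nonempty X] (hG : Geo X G) (hGC : GC X) (A : Subgroup G) (hfg : A.FG)
    (hcomm : ∀ a ∈ A, ∀ b ∈ A, a * b = b * a) (hinf : (A : Set G).Infinite)
    (hcom : ∀ g : G, ∀ a ∈ A, ∃ m : ℕ, 0 < m ∧ g * a ^ m * g⁻¹ ∈ A) :
    (∃ g : G, RankOne X g) ∨ SplitsLine X := by
  classical
  have := hG.isom
  have := hG.proper
  have hX := hG.cn
  obtain ⟨K, hK, hcov⟩ := hG.cc
  obtain ⟨x₀⟩ := ‹Nonempty X›
  obtain ⟨y, hy⟩ := exists_torus_point hG A hfg hcomm x₀
  -- the elements which move `y`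
  have hax : ∀ a : G, ∃ c : ℝ → X, a ∈ A → 0 < dist y (a • y) →
      Axis a (dist y (a • y)) c ∧ c 0 = y := by
    intro a
    by_cases h : a ∈ A ∧ 0 < dist y (a • y)
    · obtain ⟨c, hc⟩ := axis_through hX (hy a h.1) h.2
      exact ⟨c, fun _ _ => hc⟩
    · exact ⟨fun _ => y, fun h1 h2 => absurd ⟨h1, h2⟩ h⟩
  choose c hc using hax
  set P : Set X := {x | ∀ a ∈ A, 0 < dist y (a • y) → x ∈ PS (c a)} with hP
  have hyP : y ∈ P := fun a ha h0 =>
    ⟨c a, (hc a ha h0).1.1, ⟨0, fun t => by rw [dist_self]⟩, (hc a ha h0).2⟩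
  have hPcl : IsClosed P := by
    have : P = ⋂ a : G, {x | a ∈ A → 0 < dist y (a • y) → x ∈ PS (c a)} := by
      ext x; simp [hP]
    rw [this]
    refine isClosed_iInter fun a => ?_
    by_cases h : a ∈ A ∧ 0 < dist y (a • y)
    · have h1 : {x | a ∈ A → 0 < dist y (a • y) → x ∈ PS (c a)} = PS (c a) := by
        ext x; exact ⟨fun h' => h' h.1 h.2, fun h' _ _ => h'⟩
      rw [h1]
      exact PS_closed hX (hc a h.1 h.2).1.1
    · have h1 : {x | a ∈ A → 0 < dist y (a • y) → x ∈ PS (c a)} = univ := by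
        ext x; exact ⟨fun _ => trivial, fun _ h1 h2 => absurd ⟨h1, h2⟩ h⟩
      rw [h1]
      exact isClosed_univ
  have hPinv : ∀ (g : G) (x : X), x ∈ P → g • x ∈ P := by
    intro g x hx b hb hb0
    obtain ⟨m, hm, hmA⟩ := hcom g⁻¹ b hb
    rw [inv_inv] at hmA
    set a : G := g⁻¹ * b ^ m * g with ha
    have hbx := (hc b hb hb0).1
    have h1 : Axis a (m * dist y (b • y)) (fun t => g⁻¹ • c b t) := by
      have h2 := axis_cj (axis_npow hbx m) g⁻¹
      rw [inv_inv] at h2
      exact h2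
    have hpos : 0 < m * dist y (b • y) := mul_pos (by exact_mod_cast hm) hb0
    have ha0 : 0 < dist y (a • y) := dist_pos.2 (Ne.symm (axis_no_fix hpos h1 y))
    obtain ⟨c', hc', hpar, hc0⟩ := hx a hmA ha0
    have hax := (hc a hmA ha0).1
    have he := axis_length ha0 hpos hax h1
    rw [he] at hax
    have hpar2 : Par (fun t => g⁻¹ • c b t) (c a) := Pool.Agent.R632.CZ.Axis.par hpos h1 hax
    have hpar3 := par_smul (par_trans hpar2 hpar) g
    simp only [smul_inv_smul] at hpar3
    exact ⟨fun t => g • c' t, (isometry_smul X g).comp hc', hpar3, by show g • c' 0 = g • x; rw [hc0]⟩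
  obtain ⟨D, hD⟩ := hK.isBounded.subset_closedBall y
  have huniv : P = univ := by
    refine eq_univ_of_convex hX hGC ⟨y, hyP⟩ hPcl ?_ (D := D) fun x => ?_
    · intro u hu v hv m hm a ha h0
      exact PS_mid hX (hu a ha h0) (hv a ha h0) hm
    · obtain ⟨g, hg⟩ := hcov x
      have h1 := mem_closedBall.1 (hD hg)
      rw [← dist_smul g⁻¹, inv_smul_smul] at h1
      exact (infDist_le_dist_of_mem (hPinv g⁻¹ y hyP)).trans h1
  -- some element moves `y`
  obtain ⟨a, haA, ha0⟩ : ∃ a ∈ A, 0 < dist y (a • y) := by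
    by_contra hcon
    push Not at hcon
    refine hinf ((finite_short hG y 0).subset fun a ha => ?_)
    exact hcon a ha
  have hcax := (hc a haA ha0).1
  have h1 : PS (c a) = univ := by
    refine eq_univ_of_forall fun x => ?_
    have : x ∈ P := by rw [huniv]; trivial
    exact this a haA ha0
  rcases splits_or hX hcax.1 h1 with h | h
  · exact Or.inr h
  · exact Or.inl ⟨a, _, c a, ha0, hcax, HP_empty_of_line hcax.1 h⟩

end Pool.Agent.U631.RV
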