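import Pool.Agent.U631.RV.Grp
import Pool.Agent.T6.H46.RC.Tr

/-!
# Stabilisers of pairs of translates of an edge of a tree
-/

set_option autoImplicit false

open Pool.Agent.T6.H67.TA Pool.Agent.T6.H46.RR Pool.Agent.T6.H46.RC

namespace Pool.Agent.U631.RV

variable {V : Type} {T : SimpleGraph V} (hT : T.IsTree)

/-- the oriented edge `(x, y)` points to the oriented edge `(x', y')`, or they are equal -/
def Fw (T : SimpleGraph V) (x y x' y' : V) : Prop :=
  D T x y' = D T x x' + 1 ∧ D T x y' = D T y y' + 1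

lemma Fw.rev {x y x' y' : V} (h : Fw T x y x' y') : Fw T y' x' y x := by
  unfold Fw at h ⊢
  rw [D_comm y' x, D_comm y' y, D_comm x' x]
  exact ⟨h.2, h.1⟩

include hT in
lemma Fw.len {x y x' y' x'' y'' : V} (hxy' : T.Adj x' y') (h : Fw T x y x' y')
    (h' : Fw T x' y' x'' y'') : D T x y'' = D T x x' + 1 + D T y' y'' :=
  sep_edge hT (adj_D hxy') h.1 h'.2

include hT in
lemma Fw.trans {x y x' y' x'' y'' : V} (hxy : T.Adj x y) (hxy' : T.Adj x' y')
    (hxy'' : T.Adj x'' y'') (h : Fw T x y x' y') (h' : Fw T x' y' x'' y'') :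
    Fw T x y x'' y'' := by
  have h1 := h.len hT hxy' h'
  obtain ⟨a1, a2⟩ := h
  obtain ⟨b1, b2⟩ := h'
  have t1 := D_tri hT x x' x''
  have t2 := D_tri hT y y' y''
  have e1 := adj_pm hT hxy'' x
  have e2 := adj_pm hT hxy y''
  rw [D_comm y'' x, D_comm x'' x] at e1
  unfold Fw
  omega

variable {G : Type} [Group G] [MulAction G V]
  (hact : ∀ (g : G) (u v : V), T.Adj u v → T.Adj (g • u) (g • v))

include hT hact in
lemma Fw.smul {x y x' y' : V} (g : G) (h : Fw T x y x' y') :
    Fw T (g • x) (g • y) (g • x') (g • y') := by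
  unfold Fw at h ⊢
  rw [D_smul hT hact, D_smul hT hact, D_smul hT hact]
  exact h

include hT hact in
/-- what fixes the ends fixes the middle -/
lemma Fw.fix {x y x' y' x'' y'' : V} (hxy' : T.Adj x' y') (h : Fw T x y x' y')
    (h' : Fw T x' y' x'' y'') {s : G} (h1 : s • x = x) (h2 : s • y'' = y'') :
    s • x' = x' ∧ s • y' = y' := by
  have h3 := h.len hT hxy' h'
  obtain ⟨a1, a2⟩ := h
  obtain ⟨b1, b2⟩ := h'
  constructor
  · refine fix_between hT hact (a := x) (b := y'') ?_ h1 h2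
    unfold P
    rw [D_comm x' x]; omega
  · refine fix_between hT hact (a := x) (b := y'') ?_ h1 h2
    unfold P
    rw [D_comm y' x]; omega

include hT hact in
lemma fw_of_coh {a b : V} (hab : T.Adj a b) {h : G} (hh : Coh T a b h) :
    Fw T a b (h • a) (h • b) := by
  obtain ⟨h1, h2, h3, h4⟩ := hh.vals hT hact hab
  exact ⟨h1, h4⟩

include hT hact in
lemma fw_cases {a b : V} (hab : T.Adj a b) (g : G) :
    Fw T a b (g • a) (g • b) ∨ Fw T (g • a) (g • b) a b ∨ Fw T a b (g • b) (g • a) ∨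
      Fw T b a (g • a) (g • b) := by
  have dab := adj_D hab
  rcases edge_cases hT hab (hact g a b hab) with h | h | h | h | h | h
  · left
    unfold Fw
    rw [h.1, h.2, D_self, D_self, dab]; simp
  · right; right; left
    unfold Fw
    rw [h.1, h.2, D_self, D_self, dab]; simp
  · left
    exact fw_of_coh hT hact hab h
  · right; left
    have h1 : Coh T b a g := h
    have h2 := (h1.vals hT hact hab.symm)
    unfold Fw
    rw [D_comm (g • a) b, D_comm (g • a) a, D_comm (g • b) b]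
    exact ⟨h2.2.2.2, h2.1⟩
  · right; right; left
    have h1 : Fac T a b g := h
    have h2 := (h1.vals hT hact hab)
    exact ⟨h2.1, h2.2.2.2⟩
  · right; right; right
    have h1 : Fac T b a g := h
    have h2 := (h1.vals hT hact hab.symm)
    exact ⟨h2.1, h2.2.2.2⟩

/-- the pointwise stabiliser of two translates of the edge `{a, b}` -/
def LL (a b : V) (u v : G) : Subgroup G :=
  (MulAction.stabilizer G (u • a) ⊓ MulAction.stabilizer G (u • b)) ⊓
    (MulAction.stabilizer G (v • a) ⊓ MulAction.stabilizer G (v • b))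

lemma mem_LL {a b : V} {u v s : G} : s ∈ LL a b u v ↔ (s • u • a = u • a ∧ s • u • b = u • b) ∧
    s • v • a = v • a ∧ s • v • b = v • b := Iff.rfl

lemma LL_comm (a b : V) (u v : G) : LL a b u v = LL a b v u := by
  unfold LL; rw [inf_comm]

lemma mem_LL_mul {a b : V} {u v s x : G} :
    s ∈ LL a b (x * u) (x * v) ↔ x⁻¹ * s * x ∈ LL a b u v := by
  have key : ∀ (w : G) (z : V), s • (x * w) • z = (x * w) • z ↔
      (x⁻¹ * s * x) • w • z = w • z := by
    intro w z
    rw [mul_smul x w z, mul_smul (x⁻¹ * s) x, mul_smul x⁻¹ s, inv_smul_eq_iff]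
  rw [mem_LL, mem_LL, key, key, key, key]

lemma PC.mul {a b : V} {u v u' v' : G} (h : PC (LL a b u v) (LL a b u' v')) (x : G) :
    PC (LL a b (x * u) (x * v)) (LL a b (x * u') (x * v')) := by
  intro s hs
  rw [mem_LL_mul] at hs
  obtain ⟨m, hm, h1⟩ := h _ hs
  refine ⟨m, hm, ?_⟩
  rw [mem_LL_mul]
  have e : (x⁻¹ * s * x) ^ m = x⁻¹ * s ^ m * x := by
    have := conj_pow (i := m) (a := x⁻¹) (b := s)
    rw [inv_inv] at this
    exact this
  rwa [e] at h1

include hT hact in
/-- every pair of translates is in a coherent pair -/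
lemma exists_coh {a b : V} (hab : T.Adj a b) {p q : G} (hp : Fac T a b p) (hq : Fac T b a q)
    (u v : G) : ∃ w h : G, Coh T a b h ∧ LL a b w (w * h) ≤ LL a b u v := by
  have hpq := fac_mul hT hact hab hp hq
  obtain ⟨g, rfl⟩ : ∃ g, v = u * g := ⟨u⁻¹ * v, by group⟩
  have hred : ∀ h : G, LL a b 1 h ≤ LL a b 1 g → LL a b u (u * h) ≤ LL a b u (u * g) := by
    intro h hle s hs
    have h1 := (mem_LL_mul (u := 1) (v := h)).1 (by rwa [mul_one])
    have h2 := (mem_LL_mul (x := u)).2 (hle h1)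
    rwa [mul_one] at h2
  rcases edge_cases hT hab (hact g a b hab) with h | h | h | h | h | h
  · refine ⟨u, p * q, hpq, hred _ fun s hs => ?_⟩
    rw [mem_LL, one_smul, one_smul] at hs ⊢
    rw [h.1, h.2]
    exact ⟨hs.1, hs.1⟩
  · refine ⟨u, p * q, hpq, hred _ fun s hs => ?_⟩
    rw [mem_LL, one_smul, one_smul] at hs ⊢
    rw [h.1, h.2]
    exact ⟨hs.1, hs.1.2, hs.1.1⟩
  · exact ⟨u, g, h, le_rfl⟩
  · have h1 : Coh T b a g := h
    refine ⟨u * g, g⁻¹, (coh_inv hT hact).2 h1, ?_⟩
    rw [LL_comm, mul_inv_cancel_right]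
  · have h1 : Fac T a b g := h
    refine ⟨u, g * q, fac_mul hT hact hab h1 hq, hred _ fun s hs => ?_⟩
    rw [mem_LL, one_smul, one_smul] at hs ⊢
    exact ⟨hs.1, fix_mid hT hact hab h1 hq hs.1.1 hs.1.2 hs.2.1 hs.2.2⟩
  · have h1 : Fac T b a g := h
    have h2 : Coh T b a (g * p) := fac_mul hT hact hab.symm h1 hp
    refine ⟨u * (g * p), (g * p)⁻¹, (coh_inv hT hact).2 h2, ?_⟩
    rw [LL_comm, mul_inv_cancel_right]
    refine hred _ fun s hs => ?_
    rw [mem_LL, one_smul, one_smul] at hs ⊢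
    obtain ⟨h3, h4⟩ := fix_mid hT hact hab.symm h1 hp hs.1.2 hs.1.1 hs.2.2 hs.2.1
    exact ⟨hs.1, h4, h3⟩

include hT hact in
/-- a coherent pair whose stabiliser is minimal up to powers is commensurated up to powers -/
theorem comm_of_min {a b : V} (hab : T.Adj a b) {h : G} (hh : Coh T a b h)
    (hmin : ∀ u v x : G, LL a b u v ≤ LL a b x (x * h) → PC (LL a b x (x * h)) (LL a b u v))
    (x y : G) : PC (LL a b x (x * h)) (LL a b y (y * h)) := by
  have adj : ∀ g : G, T.Adj (g • a) (g • b) := fun g => hact g a b hab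
  have hF : ∀ g : G, Fw T (g • a) (g • b) ((g * h) • a) ((g * h) • b) := by
    intro g
    rw [mul_smul, mul_smul]
    exact (fw_of_coh hT hact hab hh).smul hT hact g
  -- pairs which point to each other
  have key : ∀ (u v x y : G), LL a b u v ≤ LL a b x (x * h) → LL a b u v ≤ LL a b y (y * h) →
      PC (LL a b x (x * h)) (LL a b y (y * h)) := fun u v x y h1 h2 =>
    (hmin u v x h1).trans (PC.of_le h2)
  have one : ∀ g : G, Fw T a b (g • a) (g • b) ∨ Fw T a b (g • b) (g • a) ∨
      Fw T b a (g • a) (g • b) → PC (LL a b 1 h) (LL a b g (g * h)) ∧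
        PC (LL a b g (g * h)) (LL a b 1 h) := by
    intro g hg
    have hb := hF h⁻¹
    rw [inv_mul_cancel, one_smul, one_smul] at hb
    have hgb := hF (g * h⁻¹)
    rw [inv_mul_cancel_right] at hgb
    -- first comparison of `1` and `h⁻¹`
    have hf := hF 1
    rw [one_smul, one_smul, one_mul] at hf
    have c0 : LL a b h⁻¹ h ≤ LL a b 1 (1 * h) := by
      intro s hs
      rw [mem_LL] at hs
      have := hb.fix hT hact hab hf hs.1.1 hs.2.2
      rw [one_mul, mem_LL, one_smul, one_smul]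
      exact ⟨this, hs.2⟩
    have c1 : LL a b h⁻¹ h ≤ LL a b h⁻¹ (h⁻¹ * h) := by
      intro s hs
      rw [mem_LL] at hs
      have := hb.fix hT hact hab hf hs.1.1 hs.2.2
      rw [inv_mul_cancel, mem_LL, one_smul, one_smul]
      exact ⟨hs.1, this⟩
    have d0 := key _ _ _ _ c0 c1
    have d1 := key _ _ _ _ c1 c0
    have e0 := d0.mul g
    have e1 := d1.mul g
    rw [inv_mul_cancel, mul_one] at e0
    rw [inv_mul_cancel, mul_one] at e1
    rw [one_mul] at d0 d1 e0 e1
    rw [inv_mul_cancel] at d0 d1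
    have gg : g * h⁻¹ * h = g := by group
    rcases hg with hg | hg | hg
    · -- `h⁻¹ E, E, g E, g h E`
      have s1 : LL a b h⁻¹ (g * h) ≤ LL a b h⁻¹ (h⁻¹ * h) := by
        intro s hs
        rw [mem_LL] at hs
        have h1 := hb.fix hT hact hab (hg.trans hT hab (adj g) (adj _) (hF g)) hs.1.1 hs.2.2
        rw [inv_mul_cancel, mem_LL, one_smul, one_smul]
        exact ⟨hs.1, h1⟩
      have s2 : LL a b h⁻¹ (g * h) ≤ LL a b g (g * h) := by
        intro s hs
        rw [mem_LL] at hs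
        have h1 := (hb.trans hT (adj _) hab (adj g) hg).fix hT hact (adj g) (hF g) hs.1.1 hs.2.2
        rw [mem_LL]
        exact ⟨h1, hs.2⟩
      have k1 := key _ _ _ _ s1 s2
      have k2 := key _ _ _ _ s2 s1
      rw [inv_mul_cancel] at k1 k2
      exact ⟨d0.trans k1, k2.trans d1⟩
    · -- `h⁻¹ E, E, g E, g h⁻¹ E`
      have hr := hgb.rev
      have s1 : LL a b h⁻¹ (g * h⁻¹) ≤ LL a b h⁻¹ (h⁻¹ * h) := by
        intro s hs
        rw [mem_LL] at hs
        have h1 := hb.fix hT hact hab (hg.trans hT hab (adj g).symm (adj _).symm hr) hs.1.1 hs.2.1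
        rw [inv_mul_cancel, mem_LL, one_smul, one_smul]
        exact ⟨hs.1, h1⟩
      have s2 : LL a b h⁻¹ (g * h⁻¹) ≤ LL a b (g * h⁻¹) (g * h⁻¹ * h) := by
        intro s hs
        rw [mem_LL] at hs
        have h1 := (hb.trans hT (adj _) hab (adj g).symm hg).fix hT hact (adj g).symm hr
          hs.1.1 hs.2.1
        rw [gg, mem_LL]
        exact ⟨hs.2, h1.2, h1.1⟩
      have k1 := key _ _ _ _ s1 s2
      have k2 := key _ _ _ _ s2 s1
      rw [inv_mul_cancel, gg] at k1 k2
      exact ⟨d0.trans (k1.trans e1), e0.trans (k2.trans d1)⟩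
    · -- `h E, E, g E, g h E`
      have hr := hf.rev
      have s1 : LL a b h (g * h) ≤ LL a b 1 (1 * h) := by
        intro s hs
        rw [mem_LL] at hs
        have h1 := hr.fix hT hact hab.symm (hg.trans hT hab.symm (adj g) (adj _) (hF g))
          hs.1.2 hs.2.2
        rw [one_mul, mem_LL, one_smul, one_smul]
        exact ⟨⟨h1.2, h1.1⟩, hs.1⟩
      have s2 : LL a b h (g * h) ≤ LL a b g (g * h) := by
        intro s hs
        rw [mem_LL] at hs
        have h1 := (hr.trans hT (adj h).symm hab.symm (adj g) hg).fix hT hact (adj g) (hF g)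
          hs.1.2 hs.2.2
        rw [mem_LL]
        exact ⟨h1, hs.2⟩
      have k1 := key _ _ _ _ s1 s2
      have k2 := key _ _ _ _ s2 s1
      rw [one_mul] at k1 k2
      exact ⟨k1, k2⟩
  have two : ∀ g : G, PC (LL a b 1 h) (LL a b g (g * h)) ∧ PC (LL a b g (g * h)) (LL a b 1 h) := by
    intro g
    rcases fw_cases hT hact hab g with hg | hg | hg | hg
    · exact one g (Or.inl hg)
    · have h1 := hg.smul hT hact g⁻¹
      rw [inv_smul_smul, inv_smul_smul] at h1
      obtain ⟨h2, h3⟩ := one g⁻¹ (Or.inl h1)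
      have h4 := h2.mul g
      have h5 := h3.mul g
      rw [mul_one, ← mul_assoc, mul_inv_cancel, one_mul] at h4 h5
      exact ⟨h5, h4⟩
    · exact one g (Or.inr (Or.inl hg))
    · exact one g (Or.inr (Or.inr hg))
  have h1 := (two (x⁻¹ * y)).1.mul x
  have e1 : x * (x⁻¹ * y) = y := by group
  have e2 : x * (x⁻¹ * y * h) = y * h := by group
  rw [mul_one, e1, e2] at h1
  exact h1

end Pool.Agent.U631.RV
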